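import Pool.Agent.N402.SD.OW
import Pool.Agent.N659.HB.Stm10

/-!
# SN/OWU: second moments of vectors, general law (after helper402)
-/

set_option autoImplicit false
set_option maxHeartbeats 1000000

namespace Pool.Agent.N659.SN.OWU

open MeasureTheory Filter Pool.Agent.W792.LL Pool.Agent.W792.WA Pool.Agent.N659.HB
open Pool.Agent.N402.SD.OW
open scoped Topology ENNReal

variable {d : ℕ}

theorem main : S_GR → S_RK → S_DIA → S_KB1U → S_OWU := by
  intro hGR hRK hDIA hKB d A C₁ c₁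
  obtain ⟨C, γ₀, hC, hγ₀, H⟩ := hKB d A C₁ c₁
  refine ⟨2 * C, γ₀, by linarith, hγ₀, ?_⟩
  intro μ _ w y₀ hUL γ hγ hγ1 ζ hζ1 hζ20 hζ3 u
  have hζ2 : 0 < ζ.im := hUL.hy.trans_le hζ20
  have hw : 0 < w := by
    have h1 := hUL.hA
    have h2 := hUL.hw
    linarith
  have hK := H μ w y₀ hUL γ hγ hγ1 ζ hζ1 hζ20 hζ3
  have hm : ∀ x a, Measurable fun v : (Fin d → ℤ) → ℝ => ‖ge w γ ζ v x a‖ₑ := by
    intro x a
    have h := (hGR d w ζ.im (xs d γ ζ) hw.le hζ2 (fun k => by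
      show (((γ * lap d k : ℝ) : ℂ) - ζ).im ≤ -ζ.im
      rw [Complex.sub_im, Complex.ofReal_im, zero_sub])).2 (dl a) x
    exact h.enorm
  have hsym := (hRK d w γ ζ hw hγ.le hζ2).2.2.2.1
  have hb : ∀ v x y, ‖ge (d := d) w γ ζ v x y‖ ≤ 1 / ζ.im := fun v x y => (hsym v x y).2
  have hs : ∀ v x y, ge (d := d) w γ ζ v x y = ge w γ ζ v y x := fun v x y => (hsym v x y).1
  have hdg : ∀ v (u : l2 (Fin d → ℤ)) x, dg w γ ζ v u x = ge w γ ζ v x x * u x := by
    intro v u x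
    unfold dg
    exact dia_apply hDIA _ (1 / ζ.im) (fun x => hb v x x) u x
  -- the kernels
  obtain ⟨k0, hk0⟩ : ∃ k0 : (Fin d → ℤ) → (Fin d → ℤ) → ((Fin d → ℤ) → ℝ) → ℝ≥0∞,
    ∀ x a v, k0 x a v = ‖ge w γ ζ v x a‖ₑ := ⟨_, fun _ _ _ => rfl⟩
  obtain ⟨k1, hk1⟩ : ∃ k1 : (Fin d → ℤ) → (Fin d → ℤ) → ((Fin d → ℤ) → ℝ) → ℝ≥0∞,
    ∀ x a v, k1 x a v = if x = a then 0 else ‖ge w γ ζ v x a‖ₑ := ⟨_, fun _ _ _ => rfl⟩
  have m0 : ∀ x a, Measurable (k0 x a) := by
    intro x a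
    have : k0 x a = fun v => ‖ge w γ ζ v x a‖ₑ := funext fun v => hk0 x a v
    rw [this]; exact hm x a
  have m1 : ∀ x a, Measurable (k1 x a) := by
    intro x a
    by_cases h : x = a
    · have : k1 x a = fun _ => 0 := funext fun v => by rw [hk1, if_pos h]
      rw [this]; exact measurable_const
    · have : k1 x a = fun v => ‖ge w γ ζ v x a‖ₑ := funext fun v => by rw [hk1, if_neg h]
      rw [this]; exact hm x a
  have en : ∀ v x a b, ENNReal.ofReal (‖ge (d := d) w γ ζ v x a‖ * ‖ge w γ ζ v x b‖) =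
      ‖ge (d := d) w γ ζ v x a‖ₑ * ‖ge w γ ζ v x b‖ₑ := by
    intro v x a b
    rw [ENNReal.ofReal_mul (norm_nonneg _), ofReal_norm, ofReal_norm]
  have M0 : ∀ a, ∑' b, ∑' x, ∫⁻ v, k0 x a v * k0 x b v ∂(Pn μ (Fin d → ℤ)) ≤
      ENNReal.ofReal (C / ζ.im) := by
    intro a
    refine le_trans (le_of_eq ?_) (hK a).1
    refine tsum_congr fun b => tsum_congr fun x => ?_
    simp only [hk0, en]
  have M1 : ∀ a, ∑' b, ∑' x, ∫⁻ v, k1 x a v * k1 x b v ∂(Pn μ (Fin d → ℤ)) ≤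
      ENNReal.ofReal (C * γ ^ (1 / 2 : ℝ) / ζ.im) := by
    intro a
    refine le_trans (le_of_eq ?_) (hK a).2.1
    refine tsum_congr fun b => tsum_congr fun x => ?_
    by_cases h1 : x = a
    · rw [if_pos (Or.inl h1)]
      simp only [hk1, if_pos h1, zero_mul, lintegral_zero]
    · by_cases h2 : x = b
      · rw [if_pos (Or.inr h2)]
        simp only [hk1, if_pos h2, mul_zero, lintegral_zero]
      · rw [if_neg (not_or.2 ⟨h1, h2⟩)]
        simp only [hk1, if_neg h1, if_neg h2, en]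
  have hB0 : 0 ≤ C / ζ.im := by positivity
  have hB1 : 0 ≤ C * γ ^ (1 / 2 : ℝ) / ζ.im := by positivity
  have T1 : ∀ v x a, ‖(gr w (xs d γ ζ) v - dg w γ ζ v) (dl a) x‖ₑ = k1 x a v := by
    intro v x a
    have e : (gr w (xs d γ ζ) v - dg w γ ζ v) (dl a) x =
        ge w γ ζ v x a - ge w γ ζ v x x * (dl a : l2 (Fin d → ℤ)) x := by
      rw [← hdg]
      rfl
    rw [e, hk1]
    by_cases h : x = a
    · rw [if_pos h, h, dl_self, mul_one, sub_self, enorm_zero]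
    · rw [if_neg h, dl_ne a x h, mul_zero, sub_zero]
  have k1s : ∀ x a v, k1 x a v = k1 a x v := by
    intro x a v
    rw [hk1, hk1]
    by_cases h : x = a
    · rw [if_pos h, if_pos h.symm]
    · rw [if_neg h, if_neg (Ne.symm h), hs]
  refine ⟨?_, ?_, ?_, ?_⟩
  · refine (op_bound _ k0 m0 _ hB0 M0 (fun v => gr w (xs d γ ζ) v) u fun v x => ?_).trans
      (le_of_eq (by ring))
    refine (apply_le _ u x).trans (le_of_eq (tsum_congr fun a => ?_))
    rw [hk0]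
    rfl
  · refine (op_bound _ k0 m0 _ hB0 M0
      (fun v => ContinuousLinearMap.adjoint (gr w (xs d γ ζ) v)) u fun v x => ?_).trans
      (le_of_eq (by ring))
    refine (adj_le _ u x).trans (le_of_eq (tsum_congr fun a => ?_))
    rw [hk0, hs]
    rfl
  · refine (op_bound _ k1 m1 _ hB1 M1 (fun v => gr w (xs d γ ζ) v - dg w γ ζ v) u
      fun v x => ?_).trans (le_of_eq (by ring))
    refine (apply_le _ u x).trans (le_of_eq (tsum_congr fun a => ?_))
    rw [T1]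
  · refine (op_bound _ k1 m1 _ hB1 M1
      (fun v => ContinuousLinearMap.adjoint (gr w (xs d γ ζ) v - dg w γ ζ v)) u
      fun v x => ?_).trans (le_of_eq (by ring))
    refine (adj_le _ u x).trans (le_of_eq (tsum_congr fun a => ?_))
    rw [T1, k1s]

end Pool.Agent.N659.SN.OWU
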